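import Mathlib

set_option autoImplicit false

namespace Pool.Agent.Results.MP_8ede36_co.LocFinPlane

/-- The Euclidean plane. -/
abbrev Plane : Type := EuclideanSpace ℝ (Fin 2)

/-- `G` is roughly isometric to the Euclidean plane with multiplicative constant one. -/
def RoughlyIsometricToPlane {V : Type} (G : SimpleGraph V) : Prop :=
  ∃ (f : V → Plane) (C : ℝ), 0 < C ∧
    (∀ x y : V, |‖f x - f y‖ - (G.dist x y : ℝ)| < C) ∧
    ∀ p : Plane, ∃ x : V, dist (f x) p < C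

/-! ### The vertex set -/

/-- the mesh in the `n`-th annulus -/
def mesh (n : ℕ) : ℕ := 16 * (n + 3) ^ 2

lemma mesh_pos (n : ℕ) : 0 < (mesh n : ℝ) := by
  unfold mesh
  positivity

/-- lattice points of mesh `1/M` -/
def lat (M : ℕ) : Set Plane := {v | ∃ a : Fin 2 → ℤ, ∀ i, v i = (a i : ℝ) / (M : ℝ)}

/-- the set of vertices -/
def verts : Set Plane := {v | ∃ n : ℕ, (n : ℝ) ≤ ‖v‖ + 1 ∧ v ∈ lat (mesh n)}

lemma abs_coord_le (v : Plane) (i : Fin 2) : |v i| ≤ ‖v‖ := by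
  have := EuclideanSpace.norm_eq v
  rw [this]
  apply Real.le_sqrt_of_sq_le
  rw [sq_abs]
  calc (v i) ^ 2 = ‖v i‖ ^ 2 := by rw [Real.norm_eq_abs, sq_abs]
    _ ≤ ∑ j, ‖v j‖ ^ 2 := Finset.single_le_sum (f := fun j => ‖v j‖ ^ 2)
        (fun j _ => by positivity) (Finset.mem_univ i)

lemma lat_finite (M : ℕ) (hM : 0 < (M : ℝ)) (R : ℝ) : {v | v ∈ lat M ∧ ‖v‖ ≤ R}.Finite := by
  have h1 : (Set.pi Set.univ (fun _ : Fin 2 => Set.Icc (-⌈R * M⌉) ⌈R * M⌉)).Finite :=
    Set.Finite.pi' (fun _ => Set.finite_Icc _ _) |>.subset (by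
      intro a ha i
      exact ha i (Set.mem_univ i))
  refine (h1.image (fun a : Fin 2 → ℤ => (WithLp.toLp 2 (fun i => (a i : ℝ) / (M : ℝ)) : Plane))).subset ?_
  rintro v ⟨⟨a, ha⟩, hv⟩
  refine ⟨a, ?_, ?_⟩
  · intro i _
    have h2 : |(a i : ℝ)| ≤ R * M := by
      have h3 := (abs_coord_le v i).trans hv
      rw [ha i, abs_div, abs_of_pos hM, div_le_iff₀ hM] at h3
      exact h3
    rw [abs_le] at h2
    constructor
    · have : (-⌈R * M⌉ : ℝ) ≤ (a i : ℝ) := by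
        have := Int.le_ceil (R * M)
        linarith [h2.1]
      exact_mod_cast this
    · have : (a i : ℝ) ≤ (⌈R * M⌉ : ℝ) := h2.2.trans (Int.le_ceil _)
      exact_mod_cast this
  · ext i
    simp [ha i]

lemma verts_finite (R : ℝ) : {v | v ∈ verts ∧ ‖v‖ ≤ R}.Finite := by
  have : {v | v ∈ verts ∧ ‖v‖ ≤ R} ⊆
      ⋃ n ∈ Finset.range (⌈R + 1⌉₊ + 1), {v | v ∈ lat (mesh n) ∧ ‖v‖ ≤ R} := by
    rintro v ⟨⟨n, hn, hv⟩, hR⟩
    rw [Set.mem_iUnion₂]
    refine ⟨n, ?_, hv, hR⟩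
    rw [Finset.mem_range]
    have : (n : ℝ) ≤ (⌈R + 1⌉₊ : ℝ) := hn.trans ((add_le_add_left hR 1).trans (Nat.le_ceil _))
    have : n ≤ ⌈R + 1⌉₊ := by exact_mod_cast this
    omega
  refine Set.Finite.subset ?_ this
  apply Set.Finite.biUnion (Finset.finite_toSet _)
  intro n _
  exact lat_finite _ (mesh_pos n) R

lemma approx (z : Plane) : ∃ v ∈ verts, ‖v - z‖ ≤ 1 / (8 * (2 + ‖z‖) ^ 2) := by
  obtain ⟨n, hn⟩ : ∃ n, n = ⌊‖z‖⌋₊ := ⟨_, rfl⟩
  have hn1 : (n : ℝ) ≤ ‖z‖ := by rw [hn]; exact Nat.floor_le (norm_nonneg z)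
  have hn2 : ‖z‖ < n + 1 := by rw [hn]; exact Nat.lt_floor_add_one _
  have hM := mesh_pos n
  obtain ⟨M, hMdef⟩ : ∃ M : ℝ, M = (mesh n : ℝ) := ⟨_, rfl⟩
  rw [← hMdef] at hM
  obtain ⟨v, hv⟩ : ∃ v : Plane, v = WithLp.toLp 2 (fun i => (⌊M * z i⌋ : ℝ) / M) := ⟨_, rfl⟩
  have hvi : ∀ i, v i = (⌊M * z i⌋ : ℝ) / M := fun i => by rw [hv]
  have hclose : ∀ i, |v i - z i| ≤ 1 / M := by
    intro i
    rw [hvi i]
    have h1 := Int.floor_le (M * z i)
    have h2 := Int.lt_floor_add_one (M * z i)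
    rw [abs_le]
    constructor
    · rw [neg_le_sub_iff_le_add, ← add_div, le_div_iff₀ hM]
      linarith
    · rw [sub_le_iff_le_add, div_le_iff₀ hM, add_mul, one_div, inv_mul_cancel₀ hM.ne']
      linarith
  have hnorm : ‖v - z‖ ≤ 2 / M := by
    rw [EuclideanSpace.norm_eq]
    apply Real.sqrt_le_iff.2
    refine ⟨by positivity, ?_⟩
    rw [Fin.sum_univ_two]
    have h0 := hclose 0
    have h1 := hclose 1
    have e0 : ‖(v - z) 0‖ ^ 2 ≤ (1 / M) ^ 2 := by
      have : (v - z) 0 = v 0 - z 0 := rfl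
      rw [this, Real.norm_eq_abs]
      exact pow_le_pow_left₀ (abs_nonneg _) h0 2
    have e1 : ‖(v - z) 1‖ ^ 2 ≤ (1 / M) ^ 2 := by
      have : (v - z) 1 = v 1 - z 1 := rfl
      rw [this, Real.norm_eq_abs]
      exact pow_le_pow_left₀ (abs_nonneg _) h1 2
    have e2 : (2 / M) ^ 2 = 4 * (1 / M) ^ 2 := by ring
    have e3 : 0 ≤ (1 / M) ^ 2 := by positivity
    linarith
  have hMn : M = 16 * ((n : ℝ) + 3) ^ 2 := by
    rw [hMdef, mesh]
    push_cast
    ring
  have hfin : 2 / M ≤ 1 / (8 * (2 + ‖z‖) ^ 2) := by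
    have hz := norm_nonneg z
    rw [hMn, div_le_div_iff₀ (by positivity) (by positivity)]
    have : (2 + ‖z‖) ^ 2 ≤ ((n : ℝ) + 3) ^ 2 := pow_le_pow_left₀ (by positivity) (by linarith) 2
    linarith
  refine ⟨v, ⟨n, ?_, ?_⟩, hnorm.trans hfin⟩
  · have h1 : ‖z‖ ≤ ‖v‖ + ‖v - z‖ := by
      have := norm_sub_norm_le z v
      rw [norm_sub_rev] at this
      linarith
    have h2 : (1 : ℝ) / (8 * (2 + ‖z‖) ^ 2) ≤ 1 := by
      rw [div_le_one (by positivity)]
      nlinarith [norm_nonneg z]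
    linarith [hnorm.trans hfin]
  · refine ⟨fun i => ⌊M * z i⌋, fun i => ?_⟩
    rw [hvi i, hMdef]

/-! ### The graph -/

/-- the graph on the vertex set in which distinct points at distance at most one are adjacent -/
def gr : SimpleGraph verts where
  Adj x y := x ≠ y ∧ ‖(x : Plane) - y‖ ≤ 1
  symm := ⟨fun x y h => ⟨h.1.symm, by rw [norm_sub_rev]; exact h.2⟩⟩
  loopless := ⟨fun x h => h.1 rfl⟩

lemma gr_locally_finite (x : verts) : (gr.neighborSet x).Finite := by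
  have h := verts_finite (‖(x : Plane)‖ + 1)
  have h2 : (Subtype.val ⁻¹' {v | v ∈ verts ∧ ‖v‖ ≤ ‖(x : Plane)‖ + 1} : Set verts).Finite :=
    h.preimage (Subtype.val_injective.injOn)
  refine h2.subset ?_
  rintro y ⟨-, hy⟩
  refine ⟨y.2, ?_⟩
  have := norm_sub_norm_le (y : Plane) x
  rw [norm_sub_rev] at this
  linarith

/-- the bounded increasing function `s / (1 + |s|)` -/
noncomputable def psi (s : ℝ) : ℝ := s / (1 + |s|)

lemma psi_le (s : ℝ) : psi s ≤ 1 := by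
  rw [psi, div_le_one (by positivity)]
  linarith [le_abs_self s]

lemma neg_one_le_psi (s : ℝ) : -1 ≤ psi s := by
  rw [psi, le_div_iff₀ (by positivity)]
  linarith [neg_abs_le s]

lemma psi_sub (s t : ℝ) (h : t ≤ s) : (s - t) / ((1 + |s|) * (1 + |t|)) ≤ psi s - psi t := by
  have hs : 0 < 1 + |s| := by positivity
  have ht : 0 < 1 + |t| := by positivity
  have key : psi s - psi t = (s * (1 + |t|) - t * (1 + |s|)) / ((1 + |s|) * (1 + |t|)) := by
    rw [psi, psi, div_sub_div _ _ hs.ne' ht.ne']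
    ring_nf
  rw [key]
  apply div_le_div_of_nonneg_right _ (by positivity)
  rcases le_total 0 s with h1 | h1 <;> rcases le_total 0 t with h2 | h2
  · rw [abs_of_nonneg h1, abs_of_nonneg h2]; linarith
  · rw [abs_of_nonneg h1, abs_of_nonpos h2]; nlinarith
  · rw [abs_of_nonpos h1, abs_of_nonneg h2]; nlinarith
  · rw [abs_of_nonpos h1, abs_of_nonpos h2]; linarith

/-- the potential -/
noncomputable def pot (y x : Plane) : ℝ := ‖x - y‖ + psi (‖x - y‖ - ‖y‖)

lemma step (x y : verts) (h : 1 < ‖(x : Plane) - y‖) :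
    ∃ x' : verts, gr.Adj x x' ∧ pot y x' ≤ pot y x - 1 := by
  obtain ⟨D, hD⟩ : ∃ D, D = ‖(x : Plane) - y‖ := ⟨_, rfl⟩
  obtain ⟨e, he⟩ : ∃ e : ℝ, e = 1 / (8 * (1 + ‖(x : Plane)‖) ^ 2) := ⟨_, rfl⟩
  have hx0 := norm_nonneg (x : Plane)
  have hepos : 0 < e := by rw [he]; positivity
  have he8 : e ≤ 1 / 8 := by
    rw [he]
    apply one_div_le_one_div_of_le (by norm_num)
    nlinarith
  have hD1 : 1 < D := by rw [hD]; exact h
  have hD0 : 0 < D := by linarith
  obtain ⟨z, hz⟩ : ∃ z : Plane, z = (x : Plane) + ((1 - e) / D) • ((y : Plane) - x) := ⟨_, rfl⟩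
  have hzx : ‖z - x‖ = 1 - e := by
    rw [hz, add_sub_cancel_left, norm_smul, norm_sub_rev, ← hD, Real.norm_eq_abs,
      abs_of_nonneg (div_nonneg (by linarith) hD0.le), div_mul_cancel₀ _ hD0.ne']
  have hzy : ‖z - y‖ = D - (1 - e) := by
    have : z - y = (1 - (1 - e) / D) • ((x : Plane) - y) := by
      rw [hz]
      module
    rw [this, norm_smul, ← hD, Real.norm_eq_abs, abs_of_nonneg, sub_mul, one_mul,
      div_mul_cancel₀ _ hD0.ne']
    rw [sub_nonneg, div_le_one hD0]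
    linarith
  obtain ⟨v, hv, hvz⟩ := approx z
  have hvz' : ‖v - z‖ ≤ e := by
    refine hvz.trans ?_
    rw [he]
    apply one_div_le_one_div_of_le (by positivity)
    have h1 : ‖(x : Plane)‖ ≤ ‖z‖ + 1 := by
      have := norm_sub_norm_le (x : Plane) z
      rw [norm_sub_rev, hzx] at this
      linarith
    have h2 : (1 + ‖(x : Plane)‖) ^ 2 ≤ (2 + ‖z‖) ^ 2 :=
      pow_le_pow_left₀ (by positivity) (by linarith) 2
    linarith
  have hvx : ‖v - x‖ ≤ 1 := by
    have := norm_sub_le_norm_sub_add_norm_sub v z (x : Plane)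
    linarith
  have hvy : ‖v - y‖ ≤ D - 1 + 2 * e := by
    have := norm_sub_le_norm_sub_add_norm_sub v z (y : Plane)
    linarith
  refine ⟨⟨v, hv⟩, ⟨?_, ?_⟩, ?_⟩
  · intro hxv
    have : (x : Plane) = v := congrArg Subtype.val hxv
    rw [this] at hD
    linarith
  · rw [norm_sub_rev]
    exact hvx
  · show ‖v - y‖ + psi (‖v - y‖ - ‖(y : Plane)‖) ≤ ‖(x : Plane) - y‖ +
      psi (‖(x : Plane) - y‖ - ‖(y : Plane)‖) - 1
    rw [← hD]
    obtain ⟨s, hs⟩ : ∃ s, s = D - ‖(y : Plane)‖ := ⟨_, rfl⟩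
    obtain ⟨D', hD'⟩ : ∃ D', D' = ‖v - y‖ := ⟨_, rfl⟩
    obtain ⟨t, ht⟩ : ∃ t, t = D' - ‖(y : Plane)‖ := ⟨_, rfl⟩
    rw [← hD', ← hs, ← ht]
    rw [← hD'] at hvy
    have hsx : |s| ≤ ‖(x : Plane)‖ := by
      have := abs_norm_sub_norm_le ((x : Plane) - y) (-(y : Plane))
      rw [norm_neg, ← hD, ← hs] at this
      simpa using this
    -- monotonicity of psi
    have hmono : ∀ a b : ℝ, a ≤ b → psi a ≤ psi b := by
      intro a b hab
      have h1 := psi_sub b a hab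
      have h2 : 0 ≤ (b - a) / ((1 + |b|) * (1 + |a|)) := div_nonneg (by linarith) (by positivity)
      linarith
    have h1 : psi t ≤ psi (s - (1 - 2 * e)) := hmono _ _ (by linarith)
    have h2 := psi_sub s (s - (1 - 2 * e)) (by linarith)
    have h3 : 2 * e ≤ (s - (s - (1 - 2 * e))) / ((1 + |s|) * (1 + |s - (1 - 2 * e)|)) := by
      have h4 : |s - (1 - 2 * e)| ≤ |s| + 1 := by
        have := abs_sub s (1 - 2 * e)
        have h5 : |1 - 2 * e| ≤ 1 := by
          rw [abs_le]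
          constructor <;> linarith
        linarith
      rw [le_div_iff₀ (by positivity)]
      have h6 : (1 + |s|) * (1 + |s - (1 - 2 * e)|) ≤ 2 * (1 + ‖(x : Plane)‖) ^ 2 := by
        have h7 : 0 ≤ |s| := abs_nonneg s
        have h8 : 1 + |s - (1 - 2 * e)| ≤ 2 * (1 + ‖(x : Plane)‖) := by linarith
        have h9 : 1 + |s| ≤ 1 + ‖(x : Plane)‖ := by linarith
        calc (1 + |s|) * (1 + |s - (1 - 2 * e)|) ≤ (1 + ‖(x : Plane)‖) * (2 * (1 + ‖(x : Plane)‖)) :=
              mul_le_mul h9 h8 (by positivity) (by positivity)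
          _ = 2 * (1 + ‖(x : Plane)‖) ^ 2 := by ring
      have h10 : 2 * e * (2 * (1 + ‖(x : Plane)‖) ^ 2) = 1 / 2 := by
        rw [he]
        field_simp
        norm_num
      have h11 : 2 * e * ((1 + |s|) * (1 + |s - (1 - 2 * e)|)) ≤ 1 / 2 := by
        rw [← h10]
        exact mul_le_mul_of_nonneg_left h6 (by linarith)
      linarith
    linarith

lemma walk_bound (y : verts) (n : ℕ) : ∀ x : verts, pot y x ≤ n →
    ∃ p : gr.Walk x y, p.length ≤ n + 1 := by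
  have close : ∀ x : verts, ∀ m : ℕ, ‖(x : Plane) - y‖ ≤ 1 → ∃ p : gr.Walk x y, p.length ≤ m + 1 := by
    intro x m hx
    by_cases hxy : x = y
    · subst hxy
      exact ⟨SimpleGraph.Walk.nil, by simp⟩
    · have hadj : gr.Adj x y := ⟨hxy, hx⟩
      exact ⟨hadj.toWalk, by simp⟩
  induction n with
  | zero =>
    intro x hx
    apply close
    have := neg_one_le_psi (‖(x : Plane) - y‖ - ‖(y : Plane)‖)
    rw [pot] at hx
    push_cast at hx
    linarith
  | succ n ih =>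
    intro x hx
    rcases le_or_gt ‖(x : Plane) - y‖ 1 with h | h
    · exact close x (n + 1) h
    · obtain ⟨x', hadj, hx'⟩ := step x y h
      obtain ⟨p, hp⟩ := ih x' (by push_cast at hx; linarith)
      exact ⟨SimpleGraph.Walk.cons hadj p, by simp; omega⟩

lemma exists_walk (x y : verts) : ∃ p : gr.Walk x y, (p.length : ℝ) ≤ ‖(x : Plane) - y‖ + 3 := by
  obtain ⟨p, hp⟩ := walk_bound y ⌈pot y x⌉₊ x (Nat.le_ceil _)
  refine ⟨p, ?_⟩
  have h1 : (p.length : ℝ) ≤ ⌈pot y x⌉₊ + 1 := by exact_mod_cast hp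
  have h2 : pot y x ≤ ‖(x : Plane) - y‖ + 1 := by
    rw [pot]
    linarith [psi_le (‖(x : Plane) - y‖ - ‖(y : Plane)‖)]
  have h3 : (⌈pot y x⌉₊ : ℝ) ≤ ‖(x : Plane) - y‖ + 2 := by
    have h4 : (⌈pot y x⌉₊ : ℝ) ≤ (⌈‖(x : Plane) - y‖ + 1⌉₊ : ℝ) := by
      exact_mod_cast Nat.ceil_mono h2
    have h5 := Nat.ceil_lt_add_one (show 0 ≤ ‖(x : Plane) - y‖ + 1 by positivity)
    linarith
  linarith

lemma walk_ge (x y : verts) (p : gr.Walk x y) : ‖(x : Plane) - y‖ ≤ p.length := by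
  induction p with
  | nil => simp
  | @cons u v w h q ih =>
    have h1 : ‖(u : Plane) - v‖ ≤ 1 := h.2
    have h2 := norm_sub_le_norm_sub_add_norm_sub (u : Plane) v w
    rw [SimpleGraph.Walk.length_cons]
    push_cast
    linarith

instance : Nonempty verts := by
  obtain ⟨v, hv, -⟩ := approx 0
  exact ⟨⟨v, hv⟩⟩

lemma gr_connected : gr.Connected := by
  refine ⟨fun x y => ?_⟩
  obtain ⟨p, -⟩ := exists_walk x y
  exact ⟨p⟩

/-- There is a connected locally finite graph which is roughly isometric to the plane with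
multiplicative constant one. -/
theorem result : ∃ (V : Type) (G : SimpleGraph V), G.Connected ∧
    (∀ v : V, (G.neighborSet v).Finite) ∧ RoughlyIsometricToPlane G := by
  refine ⟨verts, gr, gr_connected, gr_locally_finite, Subtype.val, 4, by norm_num, ?_, ?_⟩
  · intro x y
    obtain ⟨p, hp⟩ := exists_walk x y
    have h1 : (gr.dist x y : ℝ) ≤ ‖(x : Plane) - y‖ + 3 := by
      have : gr.dist x y ≤ p.length := SimpleGraph.dist_le p
      have : (gr.dist x y : ℝ) ≤ p.length := by exact_mod_cast this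
      linarith
    obtain ⟨q, hq⟩ := gr_connected.exists_walk_length_eq_dist x y
    have h2 := walk_ge x y q
    rw [hq] at h2
    rw [abs_lt]
    constructor <;> linarith
  · intro z
    obtain ⟨v, hv, hvz⟩ := approx z
    refine ⟨⟨v, hv⟩, ?_⟩
    rw [dist_eq_norm]
    have h2 : (1 : ℝ) / (8 * (2 + ‖z‖) ^ 2) ≤ 1 := by
      rw [div_le_one (by positivity)]
      nlinarith [norm_nonneg z]
    show ‖v - z‖ < 4
    linarith

end Pool.Agent.Results.MP_8ede36_co.LocFinPlane
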